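import Pool.Agent.V5helper68.CS.Jobs

/-!
# Job E1: single pair analysis
-/

set_option autoImplicit false

open scoped RealInnerProductSpace
open Finset

namespace Pool.Agent.V5helper29.CS

open Pool.Agent.V5helper68.CS

/-- splitting a sum over `j < 2n+1` in even and odd indices -/
lemma sum_even_odd (g : ℕ → ℝ) (n : ℕ) :
    ∑ j ∈ range (2 * n + 1), g j = ∑ r ∈ range (n + 1), g (2 * r) + ∑ r ∈ range n, g (2 * r + 1) := by
  induction n with
  | zero => simp
  | succ n ih =>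
    rw [show 2 * (n + 1) + 1 = (2 * n + 1) + 1 + 1 by ring, Finset.sum_range_succ,
      Finset.sum_range_succ, ih, Finset.sum_range_succ (fun r => g (2 * r)) (n + 1),
      Finset.sum_range_succ (fun r => g (2 * r + 1)) n]
    rw [show 2 * n + 1 + 1 = 2 * (n + 1) by ring]
    ring

theorem jobE1 : JobE1 := by
  intro V _ _ M l h K B hl hh hK hB e₀ e he₀ he hee₀ hort a c b D ha hc s s' hcode hsum
  -- abbreviations
  set E : ℕ → V := fun j => a (pv h e₀ e s j) + b - (D + c (pv h e₀ e s j)) • pv h e₀ e s' j with hE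
  set c0 : ℝ := c e₀ with hc0
  set S : ℝ := B * (4 * l) with hS
  have hlR : (1 : ℝ) ≤ l := by exact_mod_cast hl
  have hl0 : (0 : ℝ) < l := by linarith
  have hEe : ∀ r : ℕ, E (2 * r) = (h * (2 * r)) • a e₀ + b -
      ((D + h * (2 * r) * c0) * (h * (2 * r))) • e₀ := by
    intro r
    have h1 : ∀ t : ℕ → Fin M, pv h e₀ e t (2 * r) = (h * (2 * r)) • e₀ := by
      intro t
      have : ¬ Odd (2 * r) := by simp
      simp only [pv, this, if_false, add_zero]
      push_cast; rfl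
    simp only [hE, h1, map_smul, smul_eq_mul, smul_smul, hc0]
  have hEo : ∀ r : ℕ, E (2 * r + 1) = (h * (2 * r + 1)) • a e₀ + h • a (e (s r)) + b -
      ((D + h * (2 * r + 1) * c0 + h * c (e (s r))) • ((h * (2 * r + 1)) • e₀ + h • e (s' r))) := by
    intro r
    have h1 : ∀ t : ℕ → Fin M, pv h e₀ e t (2 * r + 1) = (h * (2 * r + 1)) • e₀ + h • e (t r) := by
      intro t
      have h2 : Odd (2 * r + 1) := ⟨r, rfl⟩
      have h3 : (2 * r + 1) / 2 = r := by omega
      simp only [pv, h2, if_true, h3]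
      push_cast; rfl
    simp only [hE, h1, map_add, map_smul, smul_eq_mul, hc0]
    congr 2
    ring
  -- the sums
  have hsplit : ∑ r ∈ range (4 * l), ‖E (2 * r)‖ + ∑ r ∈ range (4 * l - 1), ‖E (2 * r + 1)‖ ≤ S := by
    have h1 := sum_even_odd (fun j => ‖E j‖) (4 * l - 1)
    rw [show 2 * (4 * l - 1) + 1 = 8 * l - 1 by omega, show 4 * l - 1 + 1 = 4 * l by omega] at h1
    rw [← h1]
    exact hsum
  have hpos1 : 0 ≤ ∑ r ∈ range (4 * l - 1), ‖E (2 * r + 1)‖ :=
    Finset.sum_nonneg fun _ _ => norm_nonneg _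
  have hpos2 : 0 ≤ ∑ r ∈ range (4 * l), ‖E (2 * r)‖ := Finset.sum_nonneg fun _ _ => norm_nonneg _
  -- the `e₀`-component at even indices
  set f0 : ℕ → ℝ := fun r => ⟪e₀, E (2 * r)⟫ with hf0
  have hee : ⟪e₀, e₀⟫ = 1 := by rw [real_inner_self_eq_norm_sq, he₀]; norm_num
  have hf0v : ∀ r : ℕ, f0 r = h * (2 * r) * ⟪e₀, a e₀⟫ + ⟪e₀, b⟫ -
      (D + h * (2 * r) * c0) * (h * (2 * r)) := by
    intro r
    simp only [hf0, hEe, inner_sub_right, inner_add_right, inner_smul_right, hee]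
    ring
  have hf0le : ∀ r : ℕ, |f0 r| ≤ ‖E (2 * r)‖ := by
    intro r
    have := abs_real_inner_le_norm e₀ (E (2 * r))
    rwa [he₀, one_mul] at this
  have hsecond : ∀ r : ℕ, f0 r - 2 * f0 (r + l) + f0 (r + 2 * l) = -(8 * h ^ 2 * c0 * l ^ 2) := by
    intro r
    simp only [hf0v]
    push_cast
    ring
  have hc0b : |c0| * h ^ 2 * l ^ 2 ≤ 3 / 4 * B := by
    have h1 : ∑ r ∈ range (2 * l), (8 * h ^ 2 * |c0| * l ^ 2) ≤
        ∑ r ∈ range (2 * l), (|f0 r| + 2 * |f0 (r + l)| + |f0 (r + 2 * l)|) := by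
      refine Finset.sum_le_sum fun r _ => ?_
      have h2 := hsecond r
      have h3 : |f0 r - 2 * f0 (r + l) + f0 (r + 2 * l)| = 8 * h ^ 2 * |c0| * l ^ 2 := by
        rw [h2, abs_neg, abs_mul, abs_mul, abs_of_pos (by positivity : (0 : ℝ) < 8 * h ^ 2),
          abs_of_pos (by positivity : (0 : ℝ) < (l : ℝ) ^ 2)]
      rw [← h3]
      have h4 := abs_add_le (f0 r - 2 * f0 (r + l)) (f0 (r + 2 * l))
      have h5 := abs_sub (f0 r) (2 * f0 (r + l))
      have h6 : |2 * f0 (r + l)| = 2 * |f0 (r + l)| := by rw [abs_mul]; norm_num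
      linarith
    have h2 : ∑ r ∈ range (2 * l), (|f0 r| + 2 * |f0 (r + l)| + |f0 (r + 2 * l)|) ≤
        3 * ∑ r ∈ range (4 * l), |f0 r| := by
      have h3 : ∑ r ∈ range (4 * l), |f0 r| =
          ∑ r ∈ range (2 * l), |f0 r| + ∑ r ∈ range (2 * l), |f0 (r + 2 * l)| := by
        rw [show 4 * l = 2 * l + 2 * l by ring, Finset.sum_range_add]
        congr 1
        refine Finset.sum_congr rfl fun r _ => ?_
        rw [add_comm]
      have h4 : ∑ r ∈ range (2 * l), |f0 (r + l)| ≤ ∑ r ∈ range (4 * l), |f0 r| := by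
        have h5 : ∑ r ∈ range (2 * l), |f0 (r + l)| = ∑ r ∈ (range (2 * l)).map (addRightEmbedding l),
            |f0 r| := by
          rw [Finset.sum_map]; rfl
        rw [h5]
        refine Finset.sum_le_sum_of_subset_of_nonneg ?_ fun _ _ _ => abs_nonneg _
        intro x hx
        simp only [Finset.mem_map, Finset.mem_range, addRightEmbedding_apply] at hx
        obtain ⟨y, hy, rfl⟩ := hx
        simp only [Finset.mem_range]; omega
      rw [Finset.sum_add_distrib, Finset.sum_add_distrib, ← Finset.mul_sum]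
      linarith
    have h3 : ∑ r ∈ range (4 * l), |f0 r| ≤ S := by
      have := Finset.sum_le_sum (s := range (4 * l)) fun r _ => hf0le r
      linarith
    rw [Finset.sum_const, Finset.card_range, nsmul_eq_mul] at h1
    push_cast at h1
    have h4 : 2 * (l : ℝ) * (8 * h ^ 2 * |c0| * l ^ 2) ≤ 3 * (B * (4 * l)) := by linarith
    have h5 : (l : ℝ) * (16 * (|c0| * h ^ 2 * l ^ 2)) ≤ l * (12 * B) := by linarith
    have h6 := le_of_mul_le_mul_left h5 hl0
    linarith
  -- the differences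
  set G : ℕ → V := fun r => E (2 * r + 1) - (1 / 2 : ℝ) • (E (2 * r) + E (2 * (r + 1))) with hG
  have hGv : ∀ r : ℕ, G r = h • a (e (s r)) + (h ^ 2 * c0 - (2 * r + 1) * h ^ 2 * c (e (s r))) • e₀ -
      (h * (D + (2 * r + 1) * h * c0 + h * c (e (s r)))) • e (s' r) := by
    intro r
    simp only [hG, hEe, hEo]
    push_cast
    module
  have hGsum : ∑ r ∈ Ico l (4 * l - 1), ‖G r‖ ≤ S := by
    have h1 : ∑ r ∈ Ico l (4 * l - 1), ‖G r‖ ≤ ∑ r ∈ range (4 * l - 1), ‖G r‖ := by
      refine Finset.sum_le_sum_of_subset_of_nonneg ?_ fun _ _ _ => norm_nonneg _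
      intro x hx
      simp only [Finset.mem_Ico] at hx
      simp only [Finset.mem_range]; omega
    have h2 : ∀ r, ‖G r‖ ≤ ‖E (2 * r + 1)‖ + (1 / 2 * ‖E (2 * r)‖ + 1 / 2 * ‖E (2 * (r + 1))‖) := by
      intro r
      have h3 := norm_sub_le (E (2 * r + 1)) ((1 / 2 : ℝ) • (E (2 * r) + E (2 * (r + 1))))
      have h4 : ‖(1 / 2 : ℝ) • (E (2 * r) + E (2 * (r + 1)))‖ ≤
          1 / 2 * ‖E (2 * r)‖ + 1 / 2 * ‖E (2 * (r + 1))‖ := by
        rw [norm_smul, Real.norm_of_nonneg (by norm_num), ← mul_add]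
        exact mul_le_mul_of_nonneg_left (norm_add_le _ _) (by norm_num)
      exact h3.trans (by linarith)
    have h3 : ∑ r ∈ range (4 * l - 1), ‖G r‖ ≤ ∑ r ∈ range (4 * l - 1), ‖E (2 * r + 1)‖ +
        (1 / 2 * ∑ r ∈ range (4 * l - 1), ‖E (2 * r)‖ +
          1 / 2 * ∑ r ∈ range (4 * l - 1), ‖E (2 * (r + 1))‖) := by
      rw [Finset.mul_sum, Finset.mul_sum, ← Finset.sum_add_distrib, ← Finset.sum_add_distrib]
      exact Finset.sum_le_sum fun r _ => h2 r
    have h4 : ∑ r ∈ range (4 * l - 1), ‖E (2 * r)‖ ≤ ∑ r ∈ range (4 * l), ‖E (2 * r)‖ := by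
      refine Finset.sum_le_sum_of_subset_of_nonneg ?_ fun _ _ _ => norm_nonneg _
      exact Finset.range_mono (Nat.sub_le _ _)
    have h5 : ∑ r ∈ range (4 * l - 1), ‖E (2 * (r + 1))‖ ≤ ∑ r ∈ range (4 * l), ‖E (2 * r)‖ := by
      have h6 : ∑ r ∈ range (4 * l), ‖E (2 * r)‖ =
          ∑ r ∈ range (4 * l - 1), ‖E (2 * (r + 1))‖ + ‖E (2 * 0)‖ := by
        rw [← Finset.sum_range_succ' (fun r => ‖E (2 * r)‖) (4 * l - 1)]
        congr 2
        omega
      rw [h6]
      linarith [norm_nonneg (E (2 * 0))]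
    linarith
  have hcard : ((Ico l (4 * l - 1)).card : ℝ) ≤ 3 * l := by
    rw [Nat.card_Ico]
    have : 4 * l - 1 - l ≤ 3 * l := by omega
    exact_mod_cast this
  have hc0' : h * |c0| * l ^ 2 ≤ 3 / 4 * (B / h) := by
    have h1 : h * |c0| * l ^ 2 = (|c0| * h ^ 2 * l ^ 2) / h := by field_simp
    rw [h1, mul_div_assoc']
    exact div_le_div_of_nonneg_right hc0b hh.le
  have hBh : 0 ≤ B / h := div_nonneg hB hh.le
  have hc0'' : h * |c0| ≤ 3 / 4 * (B / h) := by
    have h1 : h * |c0| * 1 ≤ h * |c0| * l ^ 2 := by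
      refine mul_le_mul_of_nonneg_left ?_ (by positivity)
      nlinarith
    linarith
  have hc0l : h * |c0| * l ≤ 3 / 4 * (B / h) / l := by
    rw [le_div_iff₀ hl0]
    calc h * |c0| * l * l = h * |c0| * l ^ 2 := by ring
      _ ≤ _ := hc0'
  -- the sum of `|c(e_s)|`
  have hces : h * ∑ r ∈ Ico l (4 * l - 1), |c (e (s r))| ≤ 4 * (B / h) + 2 * K := by
    have h1 : ∀ r ∈ Ico l (4 * l - 1), 2 * l * (h ^ 2 * |c (e (s r))|) ≤
        ‖G r‖ + (h * K + h ^ 2 * |c0|) := by
      intro r hr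
      have hrl : (l : ℝ) ≤ r := by exact_mod_cast (Finset.mem_Ico.mp hr).1
      have h2 : ⟪e₀, G r⟫ = h * ⟪e₀, a (e (s r))⟫ + h ^ 2 * c0 - (2 * r + 1) * h ^ 2 * c (e (s r)) := by
        rw [hGv]
        simp only [inner_sub_right, inner_add_right, inner_smul_right, hee, hee₀]
        ring
      have h3 : |⟪e₀, G r⟫| ≤ ‖G r‖ := by
        have := abs_real_inner_le_norm e₀ (G r)
        rwa [he₀, one_mul] at this
      have h4 : |⟪e₀, a (e (s r))⟫| ≤ K := by
        have h5 := abs_real_inner_le_norm e₀ (a (e (s r)))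
        have h6 := ha (e (s r))
        rw [he, mul_one] at h6
        rw [he₀, one_mul] at h5
        exact h5.trans h6
      have h5 : |(2 * r + 1) * h ^ 2 * c (e (s r))| = (2 * r + 1) * (h ^ 2 * |c (e (s r))|) := by
        rw [abs_mul, abs_of_pos (by positivity : (0 : ℝ) < (2 * r + 1) * h ^ 2)]
        ring
      have h6 : (2 * r + 1) * (h ^ 2 * |c (e (s r))|) ≤ ‖G r‖ + (h * K + h ^ 2 * |c0|) := by
        rw [← h5]
        have h7 : (2 * r + 1) * h ^ 2 * c (e (s r)) =
            (h * ⟪e₀, a (e (s r))⟫ + h ^ 2 * c0) - ⟪e₀, G r⟫ := by rw [h2]; ring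
        rw [h7]
        have h8 := abs_sub (h * ⟪e₀, a (e (s r))⟫ + h ^ 2 * c0) ⟪e₀, G r⟫
        have h9 := abs_add_le (h * ⟪e₀, a (e (s r))⟫) (h ^ 2 * c0)
        rw [abs_mul, abs_of_pos hh, abs_mul, abs_of_pos (by positivity : (0 : ℝ) < h ^ 2)] at h9
        have h10 := mul_le_mul_of_nonneg_left h4 hh.le
        linarith
      refine le_trans ?_ h6
      refine mul_le_mul_of_nonneg_right (by linarith) (by positivity)
    have h2 := Finset.sum_le_sum h1
    rw [← Finset.mul_sum, ← Finset.mul_sum, Finset.sum_add_distrib, Finset.sum_const, nsmul_eq_mul] at h2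
    have h3 : ((Ico l (4 * l - 1)).card : ℝ) * (h * K + h ^ 2 * |c0|) ≤
        3 * l * (h * K + h ^ 2 * |c0|) := mul_le_mul_of_nonneg_right hcard (by positivity)
    have h4 : 2 * l * (h ^ 2 * ∑ r ∈ Ico l (4 * l - 1), |c (e (s r))|) ≤
        B * (4 * l) + 3 * l * (h * K + h ^ 2 * |c0|) := by linarith
    have h5 : (2 * l * h) * (h * ∑ r ∈ Ico l (4 * l - 1), |c (e (s r))|) ≤
        (2 * l * h) * (2 * (B / h) + 3 / 2 * K + 3 / 2 * (h * |c0|)) := by
      have h6 : (2 * l * h) * (2 * (B / h) + 3 / 2 * K + 3 / 2 * (h * |c0|)) =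
          B * (4 * l) + 3 * l * (h * K + h ^ 2 * |c0|) := by
        field_simp
        ring
      rw [h6]
      linarith
    have h7 := le_of_mul_le_mul_left h5 (by positivity)
    linarith
  -- the orthogonal component
  set x : Fin M → V := fun i => a (e i) - ⟪e₀, a (e i)⟫ • e₀ with hx
  have horth : ∑ r ∈ Ico l (4 * l - 1), ‖x (s r) - D • e (s' r)‖ ≤
      4 * (B / h) * l + 22 * (B / h) + 2 * K := by
    have h1 : ∀ r ∈ Ico l (4 * l - 1), ‖x (s r) - D • e (s' r)‖ ≤
        ‖G r‖ / h + 8 * l * (h * |c0|) + h * |c (e (s r))| := by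
      intro r hr
      have hrl : (r : ℝ) ≤ 4 * l - 1 := by
        have h2 := (Finset.mem_Ico.mp hr).2
        have h3 : r + 1 ≤ 4 * l := by omega
        have h4 : (r : ℝ) + 1 ≤ 4 * l := by exact_mod_cast h3
        linarith
      -- orthogonal projection of `G r`
      have h2 : G r - ⟪e₀, G r⟫ • e₀ = h • (x (s r) - D • e (s' r)) -
          (h * ((2 * r + 1) * h * c0 + h * c (e (s r)))) • e (s' r) := by
        have h3 : ⟪e₀, G r⟫ = h * ⟪e₀, a (e (s r))⟫ + h ^ 2 * c0 -
            (2 * r + 1) * h ^ 2 * c (e (s r)) := by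
          rw [hGv]
          simp only [inner_sub_right, inner_add_right, inner_smul_right, hee, hee₀]
          ring
        rw [h3, hGv]
        simp only [hx]
        module
      have h3 : ‖G r - ⟪e₀, G r⟫ • e₀‖ ≤ ‖G r‖ := by
        have h4 : ‖G r - ⟪e₀, G r⟫ • e₀‖ ^ 2 ≤ ‖G r‖ ^ 2 := by
          rw [norm_sub_sq_real, norm_smul, he₀, mul_one, inner_smul_right, real_inner_comm e₀ (G r),
            Real.norm_eq_abs, sq_abs]
          nlinarith [sq_nonneg ⟪e₀, G r⟫]
        exact le_of_sq_le_sq h4 (norm_nonneg _) |> fun h => h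
      have h4 : h • (x (s r) - D • e (s' r)) = (G r - ⟪e₀, G r⟫ • e₀) +
          (h * ((2 * r + 1) * h * c0 + h * c (e (s r)))) • e (s' r) := by
        rw [h2]; abel
      have h5 : h * ‖x (s r) - D • e (s' r)‖ ≤
          ‖G r‖ + h * (8 * l * (h * |c0|) + h * |c (e (s r))|) := by
        have h6 : ‖h • (x (s r) - D • e (s' r))‖ = h * ‖x (s r) - D • e (s' r)‖ := by
          rw [norm_smul, Real.norm_of_nonneg hh.le]
        rw [← h6, h4]
        refine (norm_add_le _ _).trans (add_le_add h3 ?_)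
        rw [norm_smul, he, mul_one, Real.norm_eq_abs, abs_mul, abs_of_pos hh]
        refine mul_le_mul_of_nonneg_left ?_ hh.le
        refine (abs_add_le _ _).trans ?_
        rw [abs_mul, abs_mul, abs_of_pos (by positivity : (0 : ℝ) < 2 * r + 1), abs_of_pos hh,
          abs_mul, abs_of_pos hh]
        have h7 : (2 * (r : ℝ) + 1) * (h * |c0|) ≤ 8 * l * (h * |c0|) :=
          mul_le_mul_of_nonneg_right (by linarith) (by positivity)
        linarith
      have h6 : ‖x (s r) - D • e (s' r)‖ ≤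
          (‖G r‖ + h * (8 * l * (h * |c0|) + h * |c (e (s r))|)) / h := by
        rw [le_div_iff₀ hh]; linarith
      refine h6.trans (le_of_eq ?_)
      field_simp
      ring
    have h2 := Finset.sum_le_sum h1
    rw [Finset.sum_add_distrib, Finset.sum_add_distrib, ← Finset.sum_div, Finset.sum_const,
      nsmul_eq_mul, ← Finset.mul_sum] at h2
    have h3 : (∑ r ∈ Ico l (4 * l - 1), ‖G r‖) / h ≤ B * (4 * l) / h :=
      div_le_div_of_nonneg_right hGsum hh.le
    have h4 : ((Ico l (4 * l - 1)).card : ℝ) * (8 * l * (h * |c0|)) ≤ 3 * l * (8 * l * (h * |c0|)) :=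
      mul_le_mul_of_nonneg_right hcard (by positivity)
    have h5 : 3 * (l : ℝ) * (8 * l * (h * |c0|)) = 24 * (h * |c0| * l ^ 2) := by ring
    have h6 : B * (4 * l) / h = 4 * (B / h) * l := by ring
    linarith
  -- the code property
  obtain ⟨f, hf⟩ : ∃ f : Fin M → Fin M, ∀ i j, ‖x i - D • e (f i)‖ ≤ ‖x i - D • e j‖ := by
    have : Nonempty (Fin M) := ⟨s 0⟩
    choose f hf using fun i => Finite.exists_min fun j => ‖x i - D • e j‖
    exact ⟨f, hf⟩
  have hcf := hcode f
  have hterm : ∀ r, s' r ≠ f (s r) → |D| / 2 * Real.sqrt 2 ≤ ‖x (s r) - D • e (s' r)‖ := by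
    intro r hr
    have h1 := hf (s r) (s' r)
    have h2 : ‖D • e (s' r) - D • e (f (s r))‖ = |D| * Real.sqrt 2 := by
      rw [← smul_sub, norm_smul, Real.norm_eq_abs]
      congr 1
      have h3 : ‖e (s' r) - e (f (s r))‖ ^ 2 = 2 := by
        rw [norm_sub_sq_real, he, he]
        rw [hort _ _ hr]; norm_num
      rw [← h3, Real.sqrt_sq (norm_nonneg _)]
    have h3 : ‖D • e (s' r) - D • e (f (s r))‖ ≤
        ‖x (s r) - D • e (s' r)‖ + ‖x (s r) - D • e (f (s r))‖ := by
      have h4 : D • e (s' r) - D • e (f (s r)) =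
          (x (s r) - D • e (f (s r))) - (x (s r) - D • e (s' r)) := by abel
      rw [h4]
      refine (norm_sub_le _ _).trans (by linarith)
    linarith
  -- the number of good `r`
  set A : Finset ℕ := (Ico l (4 * l - 1)).filter fun r => s' r ≠ f (s r) with hA
  have hAcard : l ≤ A.card := by
    have h1 : ((Ico l (4 * l - 1)).filter fun r => s' r = f (s r)).card ≤ l := by
      refine le_trans (Finset.card_le_card ?_) hcf
      intro r hr
      rw [Finset.mem_filter, Finset.mem_Ico] at hr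
      rw [Finset.mem_filter, Finset.mem_range]
      exact ⟨by omega, hr.2⟩
    have h2 := Finset.card_filter_add_card_filter_not (s := Ico l (4 * l - 1))
      (fun r => s' r = f (s r))
    rw [Nat.card_Ico] at h2
    have h3 : A.card = ((Ico l (4 * l - 1)).filter fun r => ¬ s' r = f (s r)).card := rfl
    omega
  have hDsum : l * (|D| / 2 * Real.sqrt 2) ≤ 4 * (B / h) * l + 22 * (B / h) + 2 * K := by
    have h1 : (A.card : ℝ) * (|D| / 2 * Real.sqrt 2) ≤ ∑ r ∈ A, ‖x (s r) - D • e (s' r)‖ := by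
      rw [← nsmul_eq_mul, ← Finset.sum_const]
      exact Finset.sum_le_sum fun r hr => hterm r (Finset.mem_filter.mp hr).2
    have h2 : ∑ r ∈ A, ‖x (s r) - D • e (s' r)‖ ≤
        ∑ r ∈ Ico l (4 * l - 1), ‖x (s r) - D • e (s' r)‖ :=
      Finset.sum_le_sum_of_subset_of_nonneg (Finset.filter_subset _ _) fun _ _ _ => norm_nonneg _
    have h3 : (l : ℝ) * (|D| / 2 * Real.sqrt 2) ≤ (A.card : ℝ) * (|D| / 2 * Real.sqrt 2) :=
      mul_le_mul_of_nonneg_right (by exact_mod_cast hAcard) (by positivity)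
    linarith
  have hD : |D| ≤ 29 / 20 * (4 * (B / h) + (22 * (B / h) + 2 * K) / l) := by
    have hs2 : (20 : ℝ) / 29 ≤ Real.sqrt 2 / 2 := by
      have : (40 / 29 : ℝ) ≤ Real.sqrt 2 := by
        apply Real.le_sqrt_of_sq_le
        norm_num
      linarith
    have h1 : (l : ℝ) * (|D| * (20 / 29)) ≤ l * (|D| / 2 * Real.sqrt 2) := by
      refine mul_le_mul_of_nonneg_left ?_ hl0.le
      have := mul_le_mul_of_nonneg_left hs2 (abs_nonneg D)
      linarith
    have h2 : (l : ℝ) * (|D| * (20 / 29)) ≤ l * (4 * (B / h) + (22 * (B / h) + 2 * K) / l) := by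
      have h3 : l * (4 * (B / h) + (22 * (B / h) + 2 * K) / l) =
          4 * (B / h) * l + 22 * (B / h) + 2 * K := by
        field_simp
        ring
      rw [h3]; linarith
    have h4 := le_of_mul_le_mul_left h2 hl0
    linarith
  have hfin : c ((h * (8 * l)) • e₀) = 8 * (h * c0 * l) := by
    rw [map_smul, smul_eq_mul, ← hc0]; ring
  have h8 : |8 * (h * c0 * l)| ≤ 8 * (3 / 4 * (B / h) / l) := by
    rw [abs_mul, abs_mul, abs_mul, abs_of_pos hh, abs_of_pos hl0, abs_of_pos (by norm_num : (0 : ℝ) < 8)]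
    linarith
  have hfinal := abs_add_le D (c ((h * (8 * l)) • e₀))
  rw [hfin] at hfinal ⊢
  refine hfinal.trans ?_
  have hBl : 0 ≤ B / h / l := div_nonneg hBh hl0.le
  have hKl : 0 ≤ K / l := div_nonneg hK hl0.le
  have e1 : (22 * (B / h) + 2 * K) / l = 22 * (B / h / l) + 2 * (K / l) := by ring
  have e2 : 3 / 4 * (B / h) / l = 3 / 4 * (B / h / l) := by ring
  have e3 : 8 * B / h + (100 * B / h + 10 * K) / l = 8 * (B / h) + 100 * (B / h / l) + 10 * (K / l) := by
    ring
  rw [e1] at hD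
  rw [e2] at h8
  rw [e3]
  linarith

end Pool.Agent.V5helper29.CS
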