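import Pool.Agent.V5helper68.CS.Jobs

/-!
# Job E2: existence of codes
-/

set_option autoImplicit false

open scoped RealInnerProductSpace
open Finset

namespace Pool.Agent.V5helper29.CS

open Pool.Agent.V5helper68.CS

/-- A relation with out-degree at most `D` on a finite type of size `≥ 8 D N` has an independent set
of size `N`. -/
lemma exists_independent {T : Type} [Fintype T] [DecidableEq T] (R : T → T → Prop) [DecidableRel R]
    (D N : ℕ) (hD : 1 ≤ D) (hout : ∀ w, (univ.filter fun w' => R w w').card ≤ D)
    (hN : N * (8 * D) ≤ Fintype.card T) :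
    ∃ A : Finset T, N ≤ A.card ∧ ∀ a ∈ A, ∀ b ∈ A, a ≠ b → ¬ R a b := by
  classical
  set L : Finset T := univ.filter fun w => (univ.filter fun w' => R w' w).card ≤ 2 * D with hL
  -- many vertices with low in-degree
  have hLcard : Fintype.card T ≤ 2 * L.card := by
    have h1 : ∑ w, (univ.filter fun w' => R w' w).card = ∑ w, (univ.filter fun w' => R w w').card := by
      simp only [Finset.card_filter]
      exact Finset.sum_comm
    have h2 : ∑ w, (univ.filter fun w' => R w w').card ≤ Fintype.card T * D := by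
      refine (Finset.sum_le_card_nsmul _ _ D fun w _ => hout w).trans ?_
      simp
    have h3 : (univ \ L).card * (2 * D) ≤ ∑ w, (univ.filter fun w' => R w' w).card := by
      refine le_trans ?_ (Finset.sum_le_sum_of_subset (Finset.subset_univ (univ \ L)))
      rw [← smul_eq_mul]
      refine Finset.card_nsmul_le_sum _ _ _ fun w hw => ?_
      rw [Finset.mem_sdiff, hL, Finset.mem_filter] at hw
      have : ¬ (univ.filter fun w' => R w' w).card ≤ 2 * D := fun h => hw.2 ⟨Finset.mem_univ _, h⟩
      omega
    have h4 : (univ \ L).card + L.card = Fintype.card T := by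
      have := Finset.card_sdiff_add_card_eq_card (Finset.subset_univ L)
      rwa [Finset.card_univ] at this
    have h5 : (univ \ L).card * (2 * D) ≤ Fintype.card T * D := by
      rw [h1] at h3; exact h3.trans h2
    have h6 : (2 * (univ \ L).card) * D ≤ Fintype.card T * D := by
      calc (2 * (univ \ L).card) * D = (univ \ L).card * (2 * D) := by ring
        _ ≤ _ := h5
    have h7 := Nat.le_of_mul_le_mul_right h6 (by omega)
    omega
  -- a maximum independent subset of `L`
  set F : Finset (Finset T) := L.powerset.filter fun A => ∀ a ∈ A, ∀ b ∈ A, a ≠ b → ¬ R a b with hF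
  have hFne : F.Nonempty := ⟨∅, by simp [hF]⟩
  obtain ⟨A, hAF, hAmax⟩ := Finset.exists_max_image F Finset.card hFne
  rw [hF, Finset.mem_filter, Finset.mem_powerset] at hAF
  obtain ⟨hAL, hAi⟩ := hAF
  refine ⟨A, ?_, hAi⟩
  have hcover : L ⊆ A ∪ A.biUnion (fun a => (univ.filter fun w' => R a w') ∪
      (univ.filter fun w' => R w' a)) := by
    intro w hw
    by_contra hcon
    rw [Finset.mem_union, Finset.mem_biUnion] at hcon
    push Not at hcon
    obtain ⟨hwA, hwn⟩ := hcon
    have hn1 : ∀ a ∈ A, ¬ R a w := by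
      intro a ha hR
      exact hwn a ha (Finset.mem_union_left _ (by simpa using hR))
    have hn2 : ∀ a ∈ A, ¬ R w a := by
      intro a ha hR
      exact hwn a ha (Finset.mem_union_right _ (by simpa using hR))
    have hins : insert w A ∈ F := by
      rw [hF, Finset.mem_filter, Finset.mem_powerset]
      refine ⟨Finset.insert_subset hw hAL, ?_⟩
      intro a ha b hb hab
      rw [Finset.mem_insert] at ha hb
      rcases ha with rfl | ha <;> rcases hb with rfl | hb
      · exact absurd rfl hab
      · exact hn2 b hb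
      · exact hn1 a ha
      · exact hAi a ha b hb hab
    have := hAmax _ hins
    rw [Finset.card_insert_of_notMem hwA] at this
    omega
  have h1 := Finset.card_le_card hcover
  have h2 : (A ∪ A.biUnion (fun a => (univ.filter fun w' => R a w') ∪
      (univ.filter fun w' => R w' a))).card ≤ A.card + A.card * (3 * D) := by
    refine (Finset.card_union_le _ _).trans (Nat.add_le_add_left ?_ _)
    refine Finset.card_biUnion_le_card_mul _ _ _ fun a ha => ?_
    refine (Finset.card_union_le _ _).trans ?_
    have h3 := hout a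
    have h4 : (univ.filter fun w' => R w' a).card ≤ 2 * D := by
      have := hAL ha
      rw [hL, Finset.mem_filter] at this
      exact this.2
    omega
  have h3 : A.card + A.card * (3 * D) ≤ A.card * (4 * D) := by nlinarith
  have h4 : N * (8 * D) ≤ A.card * (8 * D) := by
    calc N * (8 * D) ≤ Fintype.card T := hN
      _ ≤ 2 * L.card := hLcard
      _ ≤ 2 * (A.card * (4 * D)) := by omega
      _ = A.card * (8 * D) := by ring
  exact Nat.le_of_mul_le_mul_right h4 (by omega)

/-- number of words agreeing with a given word on a set of positions -/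
lemma card_agree {n M : ℕ} (R : Finset (Fin n)) (g : Fin n → Fin M) :
    (univ.filter fun w : Fin n → Fin M => ∀ r ∈ R, w r = g r).card = M ^ (n - R.card) := by
  classical
  have h1 : (univ.filter fun w : Fin n → Fin M => ∀ r ∈ R, w r = g r) =
      Fintype.piFinset fun r => if r ∈ R then {g r} else univ := by
    ext w
    simp only [Finset.mem_filter, Finset.mem_univ, true_and, Fintype.mem_piFinset]
    refine forall_congr' fun r => ?_
    by_cases h : r ∈ R <;> simp [h]
  rw [h1, Fintype.card_piFinset]
  have h2 : ∀ r : Fin n, (if r ∈ R then ({g r} : Finset (Fin M)) else univ).card =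
      if r ∈ R then 1 else M := by
    intro r
    split_ifs <;> simp
  simp only [h2]
  rw [Finset.prod_ite]
  simp only [Finset.prod_const_one, one_mul, Finset.prod_const]
  congr 1
  rw [Finset.filter_not, Finset.filter_mem_eq_inter, Finset.univ_inter,
    Finset.card_sdiff_of_subset (Finset.subset_univ R), Finset.card_univ, Fintype.card_fin]

/-- the words `w'` which are a letterwise image of `w` at more than `l` places -/
lemma card_bad {n M : ℕ} (l : ℕ) (w : Fin n → Fin M) [DecidablePred fun w' : Fin n → Fin M =>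
      ∃ f : Fin M → Fin M, l < (univ.filter fun r => w' r = f (w r)).card] :
    (univ.filter fun w' : Fin n → Fin M =>
      ∃ f : Fin M → Fin M, l < (univ.filter fun r => w' r = f (w r)).card).card ≤
      M ^ M * 2 ^ n * M ^ (n - (l + 1)) := by
  classical
  have hsub : (univ.filter fun w' : Fin n → Fin M =>
      ∃ f : Fin M → Fin M, l < (univ.filter fun r => w' r = f (w r)).card) ⊆
      (univ : Finset (Fin M → Fin M)).biUnion fun f =>
        (Finset.powersetCard (l + 1) (univ : Finset (Fin n))).biUnion fun R =>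
          univ.filter fun w' : Fin n → Fin M => ∀ r ∈ R, w' r = f (w r) := by
    intro w' hw'
    rw [Finset.mem_filter] at hw'
    obtain ⟨-, f, hf⟩ := hw'
    obtain ⟨R, hR1, hR2⟩ := Finset.exists_subset_card_eq (Nat.succ_le_of_lt hf)
    rw [Finset.mem_biUnion]
    refine ⟨f, Finset.mem_univ _, ?_⟩
    rw [Finset.mem_biUnion]
    refine ⟨R, ?_, ?_⟩
    · rw [Finset.mem_powersetCard]
      exact ⟨Finset.subset_univ _, hR2⟩
    · rw [Finset.mem_filter]
      refine ⟨Finset.mem_univ _, fun r hr => ?_⟩
      exact (Finset.mem_filter.mp (hR1 hr)).2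
  refine (Finset.card_le_card hsub).trans ?_
  have h1 : ∀ f : Fin M → Fin M, ((Finset.powersetCard (l + 1) (univ : Finset (Fin n))).biUnion fun R =>
          univ.filter fun w' : Fin n → Fin M => ∀ r ∈ R, w' r = f (w r)).card ≤
          2 ^ n * M ^ (n - (l + 1)) := by
    intro f
    refine (Finset.card_biUnion_le_card_mul _ _ (M ^ (n - (l + 1))) fun R hR => ?_).trans ?_
    · rw [card_agree R fun r => f (w r), (Finset.mem_powersetCard.mp hR).2]
    · refine Nat.mul_le_mul_right _ ?_
      rw [Finset.card_powersetCard, Finset.card_univ, Fintype.card_fin]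
      exact Nat.choose_le_two_pow n (l + 1)
  refine (Finset.card_biUnion_le_card_mul _ _ (2 ^ n * M ^ (n - (l + 1))) fun f _ => h1 f).trans ?_
  rw [Finset.card_univ, Fintype.card_fun, Fintype.card_fin, mul_assoc]

theorem jobE2 : JobE2 := by
  classical
  intro κ hκ
  set M : ℕ := 32 * κ ^ 8 with hM
  have hM0 : 0 < M := by positivity
  refine ⟨M, 8 * M ^ M + 1, fun l hl => ?_⟩
  have hl1 : 1 ≤ l := by omega
  set bad : (Fin (4 * l) → Fin M) → (Fin (4 * l) → Fin M) → Prop := fun w w' =>
    ∃ f : Fin M → Fin M, l < (univ.filter fun r => w' r = f (w r)).card with hbad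
  set D : ℕ := M ^ M * 2 ^ (4 * l) * M ^ (4 * l - (l + 1)) with hD
  have hD1 : 1 ≤ D := Nat.succ_le_of_lt (by positivity)
  have hcount : κ ^ (8 * l) * (8 * D) ≤ Fintype.card (Fin (4 * l) → Fin M) := by
    rw [Fintype.card_fun, Fintype.card_fin, Fintype.card_fin]
    have h1 : 8 * M ^ M ≤ 2 ^ l := by
      have h2 : l < 2 ^ l := Nat.lt_two_pow_self
      omega
    have h2 : M ^ (4 * l) = M * M ^ l * M ^ (4 * l - (l + 1)) := by
      rw [← pow_succ', ← pow_add]
      congr 1
      omega
    have h3 : 2 ^ l * (κ ^ (8 * l) * 2 ^ (4 * l)) = M ^ l := by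
      rw [hM, pow_mul, pow_mul, ← mul_pow, ← mul_pow]
      congr 1
      ring
    calc κ ^ (8 * l) * (8 * D) =
        (8 * M ^ M) * (κ ^ (8 * l) * 2 ^ (4 * l)) * M ^ (4 * l - (l + 1)) := by rw [hD]; ring
      _ ≤ 2 ^ l * (κ ^ (8 * l) * 2 ^ (4 * l)) * M ^ (4 * l - (l + 1)) := by gcongr
      _ = M ^ l * M ^ (4 * l - (l + 1)) := by rw [h3]
      _ ≤ M * M ^ l * M ^ (4 * l - (l + 1)) :=
        Nat.mul_le_mul_right _ (Nat.le_mul_of_pos_left _ hM0)
      _ = M ^ (4 * l) := h2.symm
  obtain ⟨A, hA, hAi⟩ := exists_independent bad D (κ ^ (8 * l)) hD1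
    (fun w => card_bad l w) hcount
  -- an injection
  obtain ⟨A', hA'A, hA'c⟩ := Finset.exists_subset_card_eq hA
  have e : Fin (κ ^ (8 * l)) ≃ A' := (Finset.equivFinOfCardEq hA'c).symm
  refine ⟨fun p r => if h : r < 4 * l then (e p : Fin (4 * l) → Fin M) ⟨r, h⟩ else ⟨0, hM0⟩, ?_⟩
  intro p q hpq f
  have hne : (e q : Fin (4 * l) → Fin M) ≠ (e p : Fin (4 * l) → Fin M) := by
    intro h
    exact hpq (e.injective (Subtype.ext h)).symm
  have hnb := hAi _ (hA'A (e q).2) _ (hA'A (e p).2) hne
  simp only [hbad, not_exists, not_lt] at hnb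
  have h1 : ((range (4 * l)).filter fun r =>
      (if h : r < 4 * l then (e p : Fin (4 * l) → Fin M) ⟨r, h⟩ else ⟨0, hM0⟩) =
        f (if h : r < 4 * l then (e q : Fin (4 * l) → Fin M) ⟨r, h⟩ else ⟨0, hM0⟩)) =
      (univ.filter fun r : Fin (4 * l) =>
        (e p : Fin (4 * l) → Fin M) r = f ((e q : Fin (4 * l) → Fin M) r)).map Fin.valEmbedding := by
    ext r
    simp only [Finset.mem_filter, Finset.mem_range, Finset.mem_map, Finset.mem_univ, true_and,
      Fin.valEmbedding_apply]
    constructor
    · rintro ⟨hr, h⟩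
      rw [dif_pos hr, dif_pos hr] at h
      exact ⟨⟨r, hr⟩, h, rfl⟩
    · rintro ⟨r', h, rfl⟩
      refine ⟨r'.2, ?_⟩
      rw [dif_pos r'.2, dif_pos r'.2]
      exact h
  rw [h1, Finset.card_map]
  exact hnb f

end Pool.Agent.V5helper29.CS
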